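import Mathlib

/-!
# The pointwise inequality for the initial value of `Ξ` (row `IXI` of the squad LQZ)
-/

set_option autoImplicit false

namespace Pool.Agent.LE.QZ.H93

theorem poi_key (D P : ℝ) (hD : 0 ≤ D) (hS : 0 ≤ D + 4 * P) :
    D * (16 + 4 * (D + 2 * P) + P ^ 2) ≤
      3 / 5 * ((2 + (D + 2 * P)) * (16 + 4 * (D + 2 * P) + P ^ 2)) +
      43 / 25 * ((1 + (D + 2 * P) + P ^ 2) * (8 + (D + 2 * P))) := by
  rcases le_or_gt (-1) P with h | h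
  · have h1 : 0 ≤ (1 + P) * (32.96 + 26.8 * P + 4.64 * P ^ 2) :=
      mul_nonneg (by linarith) (by nlinarith)
    have h2 : 0 ≤ D * (13.88 + 8.48 * P + 1.32 * P ^ 2) := mul_nonneg hD (by nlinarith)
    nlinarith [sq_nonneg D]
  · obtain ⟨Q, hQ⟩ : ∃ Q, Q = -P := ⟨_, rfl⟩
    obtain ⟨S, hS'⟩ : ∃ S, S = D + 4 * P := ⟨_, rfl⟩
    have hP : P = -Q := by linarith
    have hD' : D = 4 * Q + S := by linarith
    have hQ1 : 1 ≤ Q := by linarith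
    have hS0 : 0 ≤ S := by linarith
    subst hP
    rw [hD']
    have h1 : 0 ≤ S * (1.32 * Q ^ 2 - 7.52 * Q + 13.88) := mul_nonneg hS0 (by nlinarith [sq_nonneg (Q - 3)])
    have h2 : 0 ≤ 0.64 * Q ^ 3 - 0.56 * Q ^ 2 - 4.24 * Q + 32.96 := by
      nlinarith [sq_nonneg (Q - 2), mul_nonneg (by linarith : (0 : ℝ) ≤ Q - 1) (sq_nonneg (Q - 2))]
    nlinarith [sq_nonneg S]
theorem poi (x y : ℝ) : (x - y) ^ 2 * ((4 + x ^ 2) * (4 + y ^ 2)) ≤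
    3 / 5 * ((2 + x ^ 2 + y ^ 2) * ((4 + x ^ 2) * (4 + y ^ 2))) +
    43 / 25 * ((1 + x ^ 2) * (1 + y ^ 2) * (8 + x ^ 2 + y ^ 2)) := by
  have h := poi_key ((x - y) ^ 2) (x * y) (sq_nonneg _) (by nlinarith [sq_nonneg (x + y)])
  nlinarith [h]

end Pool.Agent.LE.QZ.H93
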